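import Pool.Agent.P.MP_c3da96_co.Main
import Pool.Agent.P.MP_c3da96_co.Rib

namespace Pool.Agent.Results.MP_c3da96_co.KLImmSchurPos

open Pool.Agent.P.MP_c3da96_co

/-- every Kazhdan-Lusztig immanant of every ribbon decomposition matrix is Schur positive -/
theorem result (r : ℤ → ℤ) (hr : IsRibbon r) (lam mu : YoungDiagram) (_h : mu ≤ lam) (l : ℕ)
    (κ a b : Fin l → ℤ) (hdec : IsDecomp r lam mu κ a b) (w : Equiv.Perm (Fin l)) :
    SchurPositive (fun k => klImm w (ribbonMatrix r a b k)) :=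
  ribbon_main (pack l) isKLB_BB.inversion r hr lam mu κ a b hdec w

end Pool.Agent.Results.MP_c3da96_co.KLImmSchurPos
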